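import Pool.Agent.FujCyl.Fin

/-!
# The cylinders over the homogeneous singular solution of the Fujita equation: members of `B_n`, and their energy

Let `p > 1`, let `V` be a subspace of `ℝⁿ` of dimension `k` with `k (p - 1) > 2 (p + 1)`, and let `w` be the cylinder
over the radial homogeneous singular solution in `V`, that is `w(y) = (θ (k - 2 - θ))^(1/(p-1)) |P y|^(-θ)` with
`θ = 2/(p-1)` and `P` the orthogonal projection to `V`. It is a suitable weak solution of
`Δw - y·∇w/2 - w/(p-1) + |w|^(p-1) w = 0` and belongs to `B_n`. Its energy is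
`E(w) = E(κ) (k/2 - p/(p-1))^s Γ(k/2 - s) / Γ(k/2)` with `s = (p+1)/(p-1)`. The quotient `E(w)/E(κ)` is greater than `1`,
strictly decreasing in `k`, and tends to `1` as `k → ∞`. For `V = ℝⁿ` this is the radial solution; a proper subspace
with `k (p - 1) > 2 (p + 1)` exists exactly for `p > (n+1)/(n-3)`.

The definitions are in `Pool.Agent.FujCyl.Def`.
-/

namespace Pool.Agent.Results.MP_9e72b2_an.CylinderEnergy

open Real Filter Topology MeasureTheory Module Pool.Agent.FujCyl
open scoped ContDiff

/-- **Theorem.** Let `p > 1`. For every `n` and every subspace `V` of `ℝⁿ` of dimension `k` with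
`k (p - 1) > 2 (p + 1)`, the cylinder `w` over the homogeneous solution in `V` belongs to `B_n`; it is positive and smooth
and solves the equation (S) off `{P y = 0}`; `E(κ) = (p-1)/(2(p+1)) κ^(p+1)`, `E(w) = E(κ) ratio(k)` and `E(κ) < E(w)`.
The quotient `ratio(k)` is strictly decreasing in these `k` and tends to `1` as `k → ∞`. -/
theorem result (p : ℝ) (hp : 1 < p) :
    (∀ (n : ℕ) (V : Submodule ℝ (EuclideanSpace ℝ (Fin n))),
      2 * (p + 1) < finrank ℝ V * (p - 1) →
        InB n p (cyl p V) (gradient (cyl p V)) ∧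
        (∀ y, V.starProjection y ≠ 0 → 0 < cyl p V y ∧ ContDiffAt ℝ ∞ (cyl p V) y ∧
          Laplacian.laplacian (cyl p V) y - 1 / 2 * fderiv ℝ (cyl p V) y y -
            1 / (p - 1) * cyl p V y + |cyl p V y| ^ (p - 1) * cyl p V y = 0) ∧
        energy n p (fun _ => kappa p) (fun _ => 0) = (p - 1) / (2 * (p + 1)) * kappa p ^ (p + 1) ∧
        energy n p (cyl p V) (gradient (cyl p V)) =
          energy n p (fun _ => kappa p) (fun _ => 0) * ratio p (finrank ℝ V) ∧
        energy n p (fun _ => kappa p) (fun _ => 0) < energy n p (cyl p V) (gradient (cyl p V))) ∧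
    (∀ k l : ℕ, 2 * (p + 1) < k * (p - 1) → k < l → ratio p l < ratio p k) ∧
    Tendsto (fun k : ℕ => ratio p k) atTop (𝓝 1) := by
  obtain ⟨h1, h2, h3⟩ := energy_all hp
  exact ⟨fun n V hV => ⟨cyl_inB hp V hV, fun y hy => cyl_equation hp V hV hy, h1 n V hV⟩, h2, h3⟩

end Pool.Agent.Results.MP_9e72b2_an.CylinderEnergy
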