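import Pool.Agent.FujCyl.Red4

/-!
# Cylinders over members of `B_k` are members of `B_n` with the same energy

Let `L` be a linear isometry of `ℝᵏ` into `ℝⁿ` with adjoint `A`. If `w` is in `B_k`, with weak gradient `G`, then
`y ↦ w (A y)` is in `B_n`, with weak gradient `y ↦ L (G (A y))`, and it has the same energy. So for a fixed `p` a lower
bound of the energy on `B_n` is one on `B_k` for all `k ≤ n`, and the inequality `E(w) ≥ E(κ)` of the question holds in
all dimensions once it holds in arbitrarily large dimensions.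

The definitions are in `Pool.Agent.FujCyl.Def`, in `Pool.Agent.FujCyl.Red4` (`SmoothVersion`, and `ClassB`, the class `B_n`
for functions up to null sets) and below.
-/

namespace Pool.Agent.Results.MP_9e72b2_an.CylinderReduction

open Real Filter Topology MeasureTheory Module Pool.Agent.FujCyl
open scoped ContDiff

/-- `A` is the adjoint of the linear isometry `L` of `ℝᵏ` into `ℝⁿ`. -/
def IsAdjoint {k n : ℕ} (L : EuclideanSpace ℝ (Fin k) →ₗᵢ[ℝ] EuclideanSpace ℝ (Fin n))
    (A : EuclideanSpace ℝ (Fin n) → EuclideanSpace ℝ (Fin k)) : Prop :=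
  ∀ x y, inner ℝ (L x) y = inner ℝ x (A y)

/-- `c` is a lower bound of the energy on `B_n`. -/
def LowerBound (n : ℕ) (p c : ℝ) : Prop :=
  ∀ (w : EuclideanSpace ℝ (Fin n) → ℝ) (G : EuclideanSpace ℝ (Fin n) → EuclideanSpace ℝ (Fin n)),
    ClassB n p w G → c ≤ energy n p w G

/-- The energy `E(κ)` in dimension `n`. -/
noncomputable def energyKappa (n : ℕ) (p : ℝ) : ℝ := energy n p (fun _ => kappa p) (fun _ => 0)

/-- **Theorem.** (1) If `L` is a linear isometry of `ℝᵏ` into `ℝⁿ` with adjoint `A` and `w`, with weak gradient `G`, is in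
`B_k`, then `y ↦ w (A y)`, with weak gradient `y ↦ L (G (A y))`, is in `B_n` and has the same energy. (2) For `k ≤ n`
every lower bound of the energy on `B_n` is a lower bound on `B_k`. (3) For `p > 1` the energy of `κ` is the same in all
dimensions, and if `E(w) ≥ E(κ)` on `B_n` for arbitrarily large `n`, then `E(w) ≥ E(κ)` on `B_n` for all `n`. -/
theorem result :
    (∀ (k n : ℕ) (L : EuclideanSpace ℝ (Fin k) →ₗᵢ[ℝ] EuclideanSpace ℝ (Fin n))
      (A : EuclideanSpace ℝ (Fin n) → EuclideanSpace ℝ (Fin k)), IsAdjoint L A →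
      ∀ (p : ℝ) (w : EuclideanSpace ℝ (Fin k) → ℝ)
        (G : EuclideanSpace ℝ (Fin k) → EuclideanSpace ℝ (Fin k)), ClassB k p w G →
        ClassB n p (fun y => w (A y)) (fun y => L (G (A y))) ∧
          energy n p (fun y => w (A y)) (fun y => L (G (A y))) = energy k p w G) ∧
    (∀ (k n : ℕ) (p c : ℝ), k ≤ n → LowerBound n p c → LowerBound k p c) ∧
    (∀ p : ℝ, 1 < p → (∀ k n : ℕ, energyKappa k p = energyKappa n p) ∧
      ((∃ᶠ n in atTop, LowerBound n p (energyKappa n p)) →
        ∀ n, LowerBound n p (energyKappa n p))) := by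
  have h2 : ∀ (k n : ℕ) (p c : ℝ), k ≤ n → LowerBound n p c → LowerBound k p c := by
    intro k n p c hkn hn w G hw
    let f : EuclideanSpace ℝ (Fin k) →ₗ[ℝ] EuclideanSpace ℝ (Fin n) :=
      (EuclideanSpace.basisFun (Fin k) ℝ).toBasis.constr ℝ
        (fun i => EuclideanSpace.basisFun (Fin n) ℝ (Fin.castLE hkn i))
    have hv : Orthonormal ℝ (EuclideanSpace.basisFun (Fin k) ℝ).toBasis := by
      rw [OrthonormalBasis.coe_toBasis]
      exact (EuclideanSpace.basisFun (Fin k) ℝ).orthonormal
    have hf : Orthonormal ℝ (f ∘ (EuclideanSpace.basisFun (Fin k) ℝ).toBasis) := by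
      have e : f ∘ (EuclideanSpace.basisFun (Fin k) ℝ).toBasis =
          (EuclideanSpace.basisFun (Fin n) ℝ) ∘ (Fin.castLE hkn) := by
        funext i
        exact Basis.constr_basis _ _ _ _
      rw [e]
      exact (EuclideanSpace.basisFun (Fin n) ℝ).orthonormal.comp _ (Fin.castLE_injective hkn)
    rw [← energy_cylinder (f.isometryOfOrthonormal hv hf) p w G]
    exact hn _ _ (red_classB _ hw)
  refine ⟨?_, h2, fun p hp => ?_⟩
  · intro k n L A hA p w G h
    have e : A = fun y => Ad L y := by
      funext y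
      refine ext_inner_left ℝ fun x => ?_
      rw [← hA x y]
      unfold Ad
      rw [ContinuousLinearMap.adjoint_inner_right]
      rfl
    rw [e]
    exact ⟨red_classB L h, energy_cylinder L p w G⟩
  have h3 : ∀ k n : ℕ, energyKappa k p = energyKappa n p := by
    intro k n
    unfold energyKappa
    rw [energy_kappa k hp, energy_kappa n hp]
  refine ⟨h3, fun hfr n => ?_⟩
  obtain ⟨m, hnm, hm⟩ := (frequently_atTop.1 hfr) n
  rw [h3 n m]
  exact h2 n m p _ hnm hm

end Pool.Agent.Results.MP_9e72b2_an.CylinderReduction
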